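import Pool.Agent.HUK.StmtsA

/-!
# HUK: sets with few algebraic numbers, the form for the final statements (helper39)
-/

set_option autoImplicit false

namespace Pool.Agent.HUK

open Polynomial NumberField

/-- The set `S` contains few algebraic numbers (with power saving):
(seg) for all `m`, `A` there is `δ > 0` such that for every algebraic number `x` of degree at most `m` and
height at most `X ^ A` at most `O(X ^ (1 - δ))` of the numbers `x, x + 1, .., x + X - 1` are in `S`,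
uniformly in `x`;
(frc) for every number field `k` of degree `m`, every embedding and every `A` there is `δ > 0` such that `S`
contains at most `O(X ^ (m + A (m + 1) - δ))` of the `≍ X ^ (m + A (m + 1))` fractions `a / b` with
`a` in the ring of integers of `k`, `1 ≤ b ≤ X ^ A`, all whose conjugates have absolute value at
most `X` (`A = 0`: the elements of the ring of integers);
(alg) for every `m` there is `δ > 0` such that `S` contains at most `O(X ^ (m (m + 1) / 2 - δ))` of the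
`≍ X ^ (m (m + 1) / 2)` algebraic integers of degree at most `m` all whose conjugates have absolute value
at most `X`. -/
structure Few {E : Type} [Field E] (S : Set E) : Prop where
  seg : ∀ m A : ℕ, ∃ (C : ℕ) (δ : ℝ), 0 < δ ∧ ∀ X : ℕ, 1 ≤ X → ∀ x ∈ Ap E m (X ^ A),
    (Nat.card {κ : ℕ // κ < X ∧ x + κ ∈ S} : ℝ) ≤ C * (X : ℝ) ^ (1 - δ)
  frc : ∀ (k : Type) [Field k] [NumberField k] (σ : k →+* E) (A : ℕ), ∃ (C : ℕ) (δ : ℝ), 0 < δ ∧
    ∀ X : ℕ, 1 ≤ X →
      (Nat.card {p : 𝓞 k × ℕ // 1 ≤ p.2 ∧ p.2 ≤ X ^ A ∧ house (p.1 : k) ≤ p.2 * X ∧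
        σ p.1 / (p.2 : E) ∈ S} : ℝ) ≤
      C * (X : ℝ) ^ ((Module.finrank ℚ k : ℝ) + A * (Module.finrank ℚ k + 1) - δ)
  alg : ∀ m : ℕ, ∃ (C : ℕ) (δ : ℝ), 0 < δ ∧ ∀ X : ℕ, 1 ≤ X →
    (Nat.card {x : E // x ∈ S ∧ x ∈ Hb E m X} : ℝ) ≤
      C * (X : ℝ) ^ (((m * (m + 1) / 2 : ℕ) : ℝ) - δ)

theorem few_of_sra (hSca : ScaStmt) (hFrc : FrcStmt) (hSpm : SpmStmt) {E : Type} [Field E]
    [CharZero E] {S : Set E} (h : Sra E S) : Few S :=
  ⟨h, fun k _ _ σ A => hFrc E S h k σ A, fun m => hSpm E S ((hSca E 0).2.2.2.2.2 S h) m⟩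

theorem few_of_spa (hSca : ScaStmt) (hFrc : FrcStmt) (hSpm : SpmStmt) {E : Type} [Field E]
    [CharZero E] {S : Set E} {δ : ℝ} (hδ : 0 < δ) (h : Spa E δ S) : Few S :=
  few_of_sra hSca hFrc hSpm ((hSca E δ).2.2.2.1 hδ S h)

end Pool.Agent.HUK
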