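import Pool.Agent.HIP.Stmts
import Pool.Agent.MTPN.Defs
import Pool.Agent.PSV.StmtsS
import Pool.Agent.Helper35_HIK.Hic

/-!
# HUK: Hilbert's irreducibility theorem, uniformly over all number fields (helper39)

One set `S` of algebraic numbers for all number fields, with few elements in each segment
`x, x + 1, .., x + X - 1` (`x` any algebraic integer of degree `≤ m` with conjugates `≤ X ^ A`).
Uses: theorems of squads HIK (`Helper*_HIK`, `HIK/All.lean`) and HIP.
Rows: file `Pool/Agent/HelperNN_HUK/XXX.lean`, theorem `Pool.Agent.HUK.HNN.xxx : XxxStmt` with the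
statements of the column `uses` as hypotheses; any row may take any other row as a hypothesis.
`Nat.card` of an infinite type is `0`, but all the types counted here are finite.
-/

set_option autoImplicit false

namespace Pool.Agent.HUK

open Polynomial NumberField Matrix Pool.Agent.MTL Pool.Agent.MTL.H34 Pool.Agent.Helper78_MT
  Pool.Agent.HIK Pool.Agent.HIP Pool.Agent.MTPN Pool.Agent.MTN

universe u

/-! ### Definitions -/

/-- The zeros of the monic integral polynomials of degree at most `m` with coefficients of absolute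
value at most `B`. -/
def Ip (E : Type) [Field E] (m B : ℕ) : Set E :=
  {x | ∃ p : ℤ[X], p.Monic ∧ p.natDegree ≤ m ∧ (∀ i, |p.coeff i| ≤ (B : ℤ)) ∧ aeval x p = 0}

/-- `S` has at most `C X ^ (1 - δ)` elements in each segment `x, x + 1, .., x + X - 1`, where `x` is an
algebraic integer of degree at most `m` of size at most `X ^ A` and `C` depends on `m` and `A`. -/
def Sps (E : Type) [Field E] (δ : ℝ) (S : Set E) : Prop :=
  ∀ m A : ℕ, ∃ C : ℝ, ∀ X : ℕ, 1 ≤ X → ∀ x ∈ Ip E m (X ^ A),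
    (Nat.card {κ : ℕ // κ < X ∧ x + κ ∈ S} : ℝ) ≤ C * (X : ℝ) ^ (1 - δ)

/-- The same with an exponent which depends on `m` and `A`. -/
def Spr (E : Type) [Field E] (S : Set E) : Prop :=
  ∀ m A : ℕ, ∃ (C : ℕ) (δ : ℝ), 0 < δ ∧ ∀ X : ℕ, 1 ≤ X → ∀ x ∈ Ip E m (X ^ A),
    (Nat.card {κ : ℕ // κ < X ∧ x + κ ∈ S} : ℝ) ≤ C * (X : ℝ) ^ (1 - δ)

/-- The algebraic integers of degree at most `m` all whose conjugates have absolute value at most `X`. -/
def Hb (E : Type) [Field E] (m X : ℕ) : Set E :=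
  {x | ∃ p : ℤ[X], p.Monic ∧ p.natDegree ≤ m ∧ (∀ z : ℂ, aeval z p = 0 → ‖z‖ ≤ X) ∧ aeval x p = 0}

/-- the map of polynomials induced by an embedding of number fields -/
noncomputable def pj {k K : Type} [Field k] [NumberField k] [Field K] [NumberField K] (j : k →+* K) :
    (𝓞 k)[X][X] →+* (𝓞 K)[X][X] :=
  mapRingHom (mapRingHom (RingOfIntegers.mapRingHom j))

/-- Monic of degree `D ≥ 2`, irreducible over the rational functions, with coefficients of degree and
house at most `H`, and the same for a nonzero resultant. -/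
structure AdmH (K : Type) [Field K] [NumberField K] (D H : ℕ) (g : (𝓞 K)[X][X]) : Prop where
  monic : g.Monic
  deg : g.natDegree = D
  two : 2 ≤ D
  irr : Irreducible (g.map (algebraMap (𝓞 K)[X] (FractionRing (𝓞 K)[X])))
  cd : ∀ j, (g.coeff j).natDegree ≤ H
  ch : ∀ j i, house (((g.coeff j).coeff i : 𝓞 K) : K) ≤ H
  sep : ∃ (A B : (𝓞 K)[X][X]) (r : (𝓞 K)[X]), r ≠ 0 ∧ A * g + B * derivative g = C r ∧
    r.natDegree ≤ H ∧ ∀ i, house ((r.coeff i : 𝓞 K) : K) ≤ H

/-- Monic of degree at least two, with a nonzero resultant, irreducible over the rational functions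
over every number field which contains `k`. -/
structure AdmS (k : Type) [Field k] [NumberField k] (g : (𝓞 k)[X][X]) : Prop where
  monic : g.Monic
  deg : 2 ≤ g.natDegree
  irr : ∀ (K : Type) [Field K] [NumberField K] (j : k →+* K),
    Irreducible ((pj j g).map (algebraMap (𝓞 K)[X] (FractionRing (𝓞 K)[X])))
  sep : ∃ (A B : (𝓞 k)[X][X]) (r : (𝓞 k)[X]), r ≠ 0 ∧ A * g + B * derivative g = C r

/-- The algebraic numbers `α` such that `g (α, Y)` (for an embedding `ψ` of the coefficients) has a zero in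
the field generated by `α` and the coefficients. -/
def RtSet (k : Type) [Field k] [NumberField k] (g : (𝓞 k)[X][X]) : Set QB :=
  {α | ∃ ψ : k →+* QB, ∃ y ∈ IntermediateField.adjoin ℚ (insert α (Set.range ψ)),
    evalEval α y (g.map (mapRingHom (ψ.comp (algebraMap (𝓞 k) k)))) = 0}

/-! ### Part A: the determinant method, uniformly -/

/-- NRU (small): uniform NRM.  Edit of `Helper10_HIP/NRM.lean`: `B = (D + D) (G + M)`. -/
def NruStmt : Prop :=
  ∀ D G M : ℕ, ∃ B : ℕ, ∀ (A : Type) [CommRing A] [IsDomain A] (g : A[X][X]), g.Monic →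
    g.natDegree ≤ D → (∀ j, (g.coeff j).natDegree ≤ G) →
    Irreducible (g.map (algebraMap A[X] (FractionRing A[X]))) →
    ∀ h : A[X][X], h ≠ 0 → h.natDegree < g.natDegree → (∀ j, (h.coeff j).natDegree ≤ M) →
      ∀ S : Finset A, (∀ t ∈ S, ∃ y : A, evalEval t y g = 0 ∧ evalEval t y h = 0) → S.card ≤ B

/-- CLU (small, uses NRU): uniform CLI.  Edit of `Helper15_HIP/CLI.lean` (`cli`): the bound `B` of NRU
does not depend on `K`, `g`; `exh`, `prodb` can be cited; the rows DET, MNM, HSD, LNV are proved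
(`HIP.H91.det`, `HIP.H44.mnm`, `HIP.H17.hsd`, `HIP.H92.lnv`). -/
def CluStmt : Prop :=
  ∀ D G M : ℕ, ∃ B : ℕ, ∀ (K : Type) [Field K] [NumberField K] (g : (𝓞 K)[X][X]), g.Monic →
    g.natDegree = D → 2 ≤ D → (∀ j, (g.coeff j).natDegree ≤ G) →
    Irreducible (g.map (algebraMap (𝓞 K)[X] (FractionRing (𝓞 K)[X]))) →
    ∀ (p : ℕ), p.Prime → ∀ (a0 y0 : 𝓞 K) (n0 T Y : ℕ), n0 ≤ T → 1 ≤ T →
    (p : 𝓞 K) ∣ evalEval (a0 + n0) y0 g →
    UnitMod (p : 𝓞 K) (evalEval (a0 + n0) y0 (derivative g)) →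
    (D * (M + 1)).factorial * (T ^ (D * ∑ i ∈ Finset.range (M + 1), i) *
        Y ^ ((M + 1) * ∑ j ∈ Finset.range D, j)) <
      p ^ (∑ k ∈ Finset.range (D * (M + 1)), k) →
    ∀ (S : Finset ℕ) (y : ℕ → 𝓞 K), (∀ n ∈ S, n ≤ T) → (∀ n ∈ S, (p : ℤ) ∣ (n : ℤ) - n0) →
      (∀ n ∈ S, (p : 𝓞 K) ∣ y n - y0) → (∀ n ∈ S, evalEval (a0 + n) (y n) g = 0) →
      (∀ n ∈ S, house (y n : K) ≤ Y) → S.card ≤ B

/-- RTU (small): uniform RTB.  Edit of the proof of RTB (`Pool.Agent.HIK.H52.rtb`):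
`‖σ y‖ ≤ 1 + ∑ j < D, ∑ i ≤ G, H T ^ i ≤ (1 + D (G + 1) H) T ^ G` for every embedding `σ`. -/
def RtuStmt : Prop :=
  ∀ D G H : ℕ, ∃ C : ℕ, ∀ (K : Type) [Field K] [NumberField K] (g : (𝓞 K)[X][X]), g.Monic →
    g.natDegree ≤ D → (∀ j, (g.coeff j).natDegree ≤ G) →
    (∀ j i, house (((g.coeff j).coeff i : 𝓞 K) : K) ≤ H) →
    ∀ T : ℕ, 1 ≤ T → ∀ a y : 𝓞 K, house (a : K) ≤ T → evalEval a y g = 0 →
      house (y : K) ≤ C * (T : ℝ) ^ G

/-- SNU (small): uniform SNG.  Edit of the proof of SNG (`sngA` in `HIK/All.lean`): `p0 = H ^ m + 1` if `H ≥ 1`;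
the absolute value of the norm of the leading coefficient of `r` is at most `H ^ m` (the norm is the
product of the conjugates, `Algebra.norm_eq_prod_embeddings`; `house` is the maximum of their absolute
values, and `H ≥ 1` since `r ≠ 0`). -/
def SnuStmt : Prop :=
  ∀ m H : ℕ, ∃ p0 : ℕ, ∀ (K : Type) [Field K] [NumberField K], Module.finrank ℚ K ≤ m →
    ∀ r : (𝓞 K)[X], r ≠ 0 → (∀ i, house ((r.coeff i : 𝓞 K) : K) ≤ H) →
    ∀ p : ℕ, p.Prime → p0 ≤ p → ∀ (a0 : 𝓞 K) (S : Finset ℕ), (∀ n ∈ S, n < p) →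
      (∀ n ∈ S, ¬ UnitMod (p : 𝓞 K) (r.eval (a0 + n))) →
      S.card ≤ Module.finrank ℚ K * r.natDegree

/-- CNU (medium, uses CLU, RTU, SNU; EXP (`HIP.H84.exp`), RTS (`rtsA` in `HIK/All.lean`) are proved): the
number of the bad parameters in a segment of length `R ^ 4`, uniformly in `K` and `g`.

Proof: edit of `Helper31_HIK/CNT.lean` (and of CNI, `Helper22_HIP/CNI.lean`, if it is there) with `e = 4`, CLU
in place of CLS, `κ = H (A + 1)` for the exponent of the roots, `M = 2 κ`, `T = R ^ 4`: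
`house (a0 + n) ≤ 2 R ^ (4 A) + R ^ 4 ≤ 3 R ^ (4 (A + 1))`, so by RTU (with `G = H`)
`house (y n) ≤ C (3 R ^ (4 (A + 1))) ^ H = C 3 ^ H (R ^ 4) ^ κ =: Y`; a prime `R ^ 3 < p ≤ 2 R ^ 3`; the size
condition `(r!) (R ^ 4) ^ a (C 3 ^ H (R ^ 4) ^ κ) ^ b < p ^ c` from `4 a + 4 κ b + 1 ≤ 3 c` (EXP) and
`r! (C 3 ^ H) ^ b ≤ R` for `R ≥ R0`.  `C' = 2 B D ^ m + m H`, `B` the bound of CLU
(`D ^ finrank ≤ D ^ m`, `finrank * natDegree r ≤ m H`). -/
def CnuStmt : Prop :=
  ∀ m D H A : ℕ, ∃ C' R0 : ℕ, ∀ (K : Type) [Field K] [NumberField K], Module.finrank ℚ K ≤ m →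
    ∀ g : (𝓞 K)[X][X], AdmH K D H g → ∀ R ≥ R0, ∀ a0 : 𝓞 K,
      house (a0 : K) ≤ 2 * (R : ℝ) ^ (4 * A) →
      Nat.card {n : ℕ // n < R ^ 4 ∧ ∃ y : 𝓞 K, evalEval (a0 + n) y g = 0} ≤ C' * R ^ 3

/-! ### Part B: from number fields to all algebraic numbers -/

/-- HOI (small): the house does not change in an extension.  `house_eq_sup'`: the house is the maximum
of the absolute values of the images under the embeddings in `ℂ`; every embedding of `K` restricts to one
of `k` along `j`, and every embedding of `k` extends to `K` (`IsAlgClosed.lift`, with `j.toAlgebra`). -/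
def HoiStmt : Prop :=
  ∀ (k K : Type) [Field k] [NumberField k] [Field K] [NumberField K] (j : k →+* K) (x : k),
    house (j x) = house x

/-- ADH (small, uses HOI): a stably irreducible polynomial has a type which does not depend on the field:
`H` = the maximum of the degrees and of the houses (rounded up) of the coefficients of `g` and `r`.
`natDegree_map_eq_of_injective`, `coeff_map`, `derivative_map`. -/
def AdhStmt : Prop :=
  ∀ (k : Type) [Field k] [NumberField k] (g : (𝓞 k)[X][X]), AdmS k g → ∃ H : ℕ,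
    ∀ (K : Type) [Field K] [NumberField K] (j : k →+* K), AdmH K g.natDegree H (pj j g)

/-- WIN (STRONG, uses ADH, CNU): the exceptional set of a stably irreducible polynomial has few
elements in all the segments.

Proof.  Fix `m`, `A`.  There are finitely many `ψ : k →+* QB` (at most `[k : ℚ]`).  Let `X ≥ 1` and
`x ∈ Ip QB m (X ^ A)`.  Fix `ψ` and let `L = adjoin ℚ (insert x (range ψ))`, a number field of degree at most
`m [k : ℚ] =: m'` (`L` is the compositum of `ℚ(x)` and `ψ(k)`; or: generated over `ψ(k)` by `x`, which is a root of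
a monic polynomial of degree `≤ m`), `j : k →+* L`; `a0 = x` as an element of `𝓞 L`:
`house a0 ≤ 1 + X ^ A ≤ 2 X ^ A` (a root `z` in `ℂ` of `p` with coefficients of absolute value `≤ B` satisfies
`‖z‖ ≤ 1 + B`; see CAU).  For `κ : ℕ` `adjoin ℚ (insert (x + κ) (range ψ)) = L`.  If `y` is in it and
`evalEval (x + κ) y (g^ψ) = 0` then `y` is integral (`g` monic, `x + κ` and the coefficients integral), so
`y ∈ 𝓞 L` and `evalEval (a0 + κ) y (pj j g) = 0` in `𝓞 L`.  So by ADH and CNU (for `m'`, `D`, `H`, `A`) with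
`(R - 1) ^ 4 < X ≤ R ^ 4`: if `R ≥ R0` at most `C' R ^ 3 ≤ 8 C' X ^ (3/4)` (`R ≤ 2 (R - 1)` for `R ≥ 2`, or
`R ≤ 2 X ^ (1/4)` for `X ≥ 1`) values `κ < X` for this `ψ`; if `R < R0` then there are at most
`X ≤ R0 ^ 4` values.  Sum over `ψ`. -/
def WinStmt : Prop :=
  ∀ (k : Type) [Field k] [NumberField k] (g : (𝓞 k)[X][X]), AdmS k g → Sps QB (1 / 4) (RtSet k g)

/-! ### Part C: Galois theory -/

/-- CSN (medium): modulo `N` the geometric Galois group `Ggeo` contains the Galois group of `k(t)`, if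
the number field `k` is large.

Proof.  `M = N ⊔ Ggeo` is open (it contains `N`), closed, and `M = Ggeo N` (`Subgroup.mul_normal`).
`F = fixedField M` is finite over `RatFunc ℚ` (`InfiniteGalois.isOpen_iff_finite`, `fixingSubgroup F = M`),
and contained in `fixedField Ggeo`.  `Ggeo` is the fixing subgroup of
`E = adjoin (RatFunc ℚ) {c | IsAlgebraic ℚ c}`, so `fixedField Ggeo = E`.  `F` is generated by finitely many
elements, each of them is in `adjoin (RatFunc ℚ) s` for a finite set `s` of algebraic numbers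
(`IntermediateField.exists_finset_of_mem_adjoin`).  Let `t` be the union of these sets, `k` the field
`adjoin ℚ t ⊆ Om` (finite over `ℚ`; mind the two algebra structures, `Subsingleton.elim`), `φ` the inclusion.
`γ ∈ Gph φ` fixes `t`, so `F`, so it is in `fixingSubgroup F = M`, `γ = γ' n`. -/
def CsnStmt : Prop :=
  ∀ N : Subgroup GT, N.Normal → IsOpen (N : Set GT) →
    ∃ (k : Type) (_ : Field k) (_ : NumberField k) (φ : k →+* Om),
      ∀ γ ∈ Gph φ, ∃ γ' ∈ Ggeo, γ'⁻¹ * γ ∈ N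

/-- STI (STRONG, uses EXI (`HIP.H67.exi HIP.H41.ali`)): EXI with a stably irreducible polynomial.

Proof.  EXI gives `x`, `g` with `AdmI k g`, fixed by `H ∩ Gph φ`.  Stable irreducibility: let `j : k → K`;
`Om` is algebraically closed, so there is `φ' : K →+* Om` with `φ'.comp j = φ`; `zph φ'` is injective (FRK,
`H80.frk`), so `F' = FractionRing (𝓞 K)[X]` is embedded in `Om` by some `ι'`, and
`zph φ' ∘ (map of 𝓞 k [X] to 𝓞 K [X]) = zph φ`.
(1) All the roots of `g` in `Om` are `γ x` with `γ ∈ Gph φ`: `g` is irreducible over `FractionRing (𝓞 k)[X]`,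
embedded by `zph φ` with image `E` = `adjoin (RatFunc ℚ) (range φ)` (FRK), and `Gph φ` is the group of `Om` over `E`
(`gph_le` and neighbours in `Helper84_HIK`), `Om` is algebraically closed and normal over `E`
(`minpoly.eq_iff`/`Normal.exists_...`: `exists_algHom_of_splits..`, or `IsGalois`/`Normal` orbit of the
roots: `minpoly.eq_of_irreducible_of_monic` and `Normal.minpoly_eq_iff_mem_orbit`).
(2) `γ = γ' n` with `γ' ∈ Ggeo`, `n ∈ N ≤ H`, and `n = γ'⁻¹ γ ∈ Gph φ` (`Ggeo ≤ Gph φ`, since `φ c` is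
algebraic), so `n x = x` and `γ x = γ' x`.
(3) Let `pj j g = u v` over `F'`, `u`, `v` monic (`g` monic; it is enough to show that one of them is `1`).  One
of them, say `u`, has the root `x` in `Om` (`pj j g` has the root `x`: the image of the coefficients in `Om` is
the same); then `u` has all the roots `γ' x`, `γ' ∈ Ggeo` (`γ'` fixes `φ' (K)` and `tt`, so the image of
`F'`), that is all the roots of `g` in `Om`.  `g` is separable over `Om` (`A g + B g' = C r`, `r ≠ 0`), so it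
has `natDegree g` different roots and `natDegree u ≥ natDegree g`, `v = 1`. -/
def StiStmt : Prop :=
  ∀ N : Subgroup GT, ∀ (k : Type) [Field k] [NumberField k] (φ : k →+* Om),
    (∀ γ ∈ Gph φ, ∃ γ' ∈ Ggeo, γ'⁻¹ * γ ∈ N) → ∀ H : Subgroup GT, N ≤ H →
    IsClosed (H : Set GT) → ¬ Gph φ ≤ H →
    ∃ (x : Om) (g : (𝓞 k)[X][X]), AdmS k g ∧ g.eval₂ (zph φ) x = 0 ∧
      ∀ σ ∈ H, σ ∈ Gph φ → σ x = x

/-- CTP (medium): a place identifies the constants of `Om` with `QB`.

Proof.  The elements of `Om` algebraic over `ℚ` are in `BB` and form an algebraically closed field `Ω0`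
(`algebraicClosure ℚ Om`); `π` is injective on it (a field) and its image is an algebraically closed
subfield of `QB`, so everything.  See `Helper79_HIK/CST.lean` and `Helper83_MTL/Dec.lean` (`pi_surj`).  (3): `τ` is
`π γ π⁻¹` on the constants. -/
def CtpStmt : Prop :=
  ∀ π : BB →+* QB,
    (∀ y : QB, ∃ b : BB, IsAlgebraic ℚ (b : Om) ∧ π b = y) ∧
    (∀ b b' : BB, IsAlgebraic ℚ (b : Om) → IsAlgebraic ℚ (b' : Om) → π b = π b' → b = b') ∧
    ∀ γ : GT, ∃ τ : GQ, ∀ b : BB, IsAlgebraic ℚ (b : Om) → π (γ • b) = τ (π b)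

/-- REU (medium, uses CTP, DEK (`dekA` in `HIK/All.lean`)): RES for all algebraic points.

Proof (see the proof of RES, `resA`).  `x` is integral over `ℚ[t]`: an element of `BB`.  `φ c`, `c ∈ k`, is
algebraic over `ℚ`, so in `BB`: `ψ c = π (φ c)` is an embedding.  `α = π t`, `y = π x`.  Let `τ ∈ GQ` fix `α` and
`ψ (k)`.  By DEK there is `σ` with `π (σ b) = τ (π b)`, so `σ ∈ decG π`, and `σ (φ c) = φ c` by (2) of CTP, so
`σ x = x` and `τ y = y`.  So `y` is in the fixed field of the fixing subgroup of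
`adjoin ℚ (insert α (range ψ))` (`InfiniteGalois.fixedField_fixingSubgroup`).  Apply `π` to
`g.eval₂ (zph φ) x = 0`. -/
def ReuStmt : Prop :=
  ∀ (k : Type) [Field k] [NumberField k] (φ : k →+* Om) (π : BB →+* QB) (x : Om)
    (g : (𝓞 k)[X][X]), g.Monic → g.eval₂ (zph φ) x = 0 →
    (∀ σ ∈ decG π, σ ∈ Gph φ → σ x = x) → π (algebraMap ℚ[X] BB X) ∈ RtSet k g

/-- HCU (medium, uses CSN, STI, CTP, REU, WIN, SPC; DEK is proved): Hilbert's irreducibility theorem for
finite quotients, uniformly over all algebraic points.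

Proof.  `k`, `φ` from CSN.  For each subgroup `D'` of the finite group `GT / N` with
`¬ Gph φ ≤ D'.comap (mk' N)` (closed, since open) let `g D'` be the polynomial of STI; `S` the union of the
`RtSet k (g D')` (WIN, SPC).  Let `α = π t ∉ S`, `H = ((decG π ⊓ Gph φ).map (mk' N)).comap (mk' N)`.
Then `Gph φ ≤ H`: otherwise `x`, `g` of STI satisfy the hypothesis of REU (`decG π ⊓ Gph φ ≤ H`), so
`α ∈ RtSet k g ⊆ S`.  `c` by CTP (1).  Let `γ c = c`, `τ` by CTP (3): `τ α = τ (π c) = π (γ c) = α`.  By DEK there is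
`σ₁` with `π (σ₁ b) = τ (π b)` for all `b`; `σ₁` and `γ` agree on the constants (CTP (2)), so
`σ₁⁻¹ γ ∈ Ggeo ≤ Gph φ ≤ H`: there is `σ₂ ∈ decG π ⊓ Gph φ` with `σ₂⁻¹ (σ₁⁻¹ γ) ∈ N`.  `σ = σ₁ σ₂ ∈ decG π`;
`σ c = c` by CTP (2), since `π (σ c) = τ' (π c) = τ' α = π (σ t) = π t = α` with the `τ'` of `σ`.
See `Helper28_HIP/HCI.lean`. -/
def HcuStmt : Prop :=
  ∀ N : Subgroup GT, N.Normal → IsOpen (N : Set GT) → ∃ S : Set QB, Sps QB (1 / 4) S ∧
    ∀ π : BB →+* QB, π (algebraMap ℚ[X] BB X) ∉ S →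
      ∃ c : BB, IsAlgebraic ℚ (c : Om) ∧ π c = π (algebraMap ℚ[X] BB X) ∧
        ∀ γ : GT, γ • c = c → ∃ σ ∈ decG π, σ • c = c ∧ σ⁻¹ * γ ∈ N

/-- IDX (small): the stabiliser of a constant has index at most the degree: the orbit is contained in
the set of the roots of `p` (`Subgroup.index`, `MulAction.orbitEquivQuotientStabilizer`,
`Polynomial.card_roots'`).  Closed: `krullTopology`, `IntermediateField.fixingSubgroup_isClosed` for
`adjoin (RatFunc ℚ) {c}`. -/
def IdxStmt : Prop :=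
  ∀ (c : Om) (p : ℤ[X]), p ≠ 0 → aeval c p = 0 →
    IsClosed ((MulAction.stabilizer GT c : Subgroup GT) : Set GT) ∧
      (MulAction.stabilizer GT c : Subgroup GT).index ≠ 0 ∧
      (MulAction.stabilizer GT c : Subgroup GT).index ≤ p.natDegree

/-- FGI (medium, uses FRA (`MTL.H33.fra`)): the closed subgroups of index at most `m` of a compact subgroup
of `GL_d(ℚ_ℓ)` contain a common closed subgroup of finite index.

Proof.  FRA for `G` gives `U`; by compactness `G ⊆ ⋃ g i U`, `i < r`, `g i ∈ G`; the closure `H` of the group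
generated by the `g i` satisfies the hypothesis of FRA, so the `g i` generate a dense subgroup of `G`.  For
`n ≤ m` the continuous homomorphisms `G → Perm (Fin n)` are determined by the images of the `g i`, so there
are finitely many of them; `W` is the intersection of their kernels (closed, of finite index).  A closed
subgroup `H` of index `n` in `G` is open in `G`; the action of `G` on `G / H` (`n` elements) is continuous and
`H` is the stabiliser of a point, so it contains the kernel. -/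
def FgiStmt : Prop :=
  ∀ (d : Type) [Fintype d] [DecidableEq d] (ℓ : ℕ) [Fact ℓ.Prime] (G : Subgroup (GL d ℚ_[ℓ])),
    IsCompact (G : Set (GL d ℚ_[ℓ])) → ∀ m : ℕ, ∃ W : Subgroup (GL d ℚ_[ℓ]), W ≤ G ∧
      IsClosed (W : Set (GL d ℚ_[ℓ])) ∧ W.relIndex G ≠ 0 ∧
      ∀ H : Subgroup (GL d ℚ_[ℓ]), H ≤ G → IsClosed (H : Set (GL d ℚ_[ℓ])) → H.relIndex G ≠ 0 →
        H.relIndex G ≤ m → W ≤ H

/-- DGU (small): one exceptional set for all degrees.

Proof.  For `x ∈ Ip QB M B` the degree `(minpoly ℚ (x + κ)).natDegree = (minpoly ℚ x).natDegree` is at most `M`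
(`minpoly.dvd`, `aeval x (p.map _) = 0`), call it `m`; so `x + κ` is in the set iff it is in `S m`.
`C = ∑ m ≤ M, |C_m|`. -/
def DguStmt : Prop :=
  ∀ (δ : ℝ) (S : ℕ → Set QB), (∀ m, Sps QB δ (S m)) →
    Sps QB δ {α : QB | α ∈ S (minpoly ℚ α).natDegree}

/-- SBV (STRONG, uses HCU, CTP, IDX, FGI, DGU; FRA (`MTL.H33.fra`) is proved): for the places at all
algebraic points outside of `S`, the image of the decomposition group contains the image of a subgroup
of finite index.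

Proof.  For each `m`: `𝒢 = ρ (H)` compact, `W` from FGI for `m`, FRA for the compact group `W` gives a
neighbourhood `U` of `1`.  `W` is closed of finite index in `𝒢`, so there is an open `V ∋ 1` with
`V ∩ 𝒢 ⊆ W` (the complement of the other cosets, finitely many closed sets).  Let `N` be an open normal
subgroup of `GT` contained in `H` with `ρ (N) ⊆ U ∩ V`
(`ProfiniteGrp.exist_openNormalSubgroup_sub_open_nhds_of_one`, as in `srb`), `S m` the set of HCU for `N`; `S` from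
DGU.  Let `α = π t ∉ S`, `m` its degree over `ℚ`, `c` from HCU; `c` is a root of the minimal polynomial of `α`
multiplied by a denominator (`π` is injective on the constants, CTP (2)), so by IDX the group
`Hc = {h ∈ H | h c = c}` is closed of index at most `m` in `H`, `ρ (Hc)` is closed of index at most `m` in `𝒢`
(nonzero), so `W ≤ ρ (Hc)`.  For `w ∈ W` let `γ ∈ Hc`, `ρ γ = w`; HCU: `σ ∈ decG π` with `σ⁻¹ γ ∈ N ≤ H`, so
`σ ∈ H`, `(ρ σ)⁻¹ w ∈ U ∩ V ∩ 𝒢`, so `(ρ σ)⁻¹ w ∈ W` and `ρ σ ∈ W`.  So the closed subgroup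
`ρ (decG π ∩ H) ∩ W` of `W` (closed: `decG_closed`, compactness, see `Helper35_HIK/Srb.lean`) is `W` by FRA.
`Γ = ρ⁻¹ (W)` has finite index in `H`. -/
def SbvStmt : Prop :=
  ∀ (H : Subgroup GT), IsOpen (H : Set GT) →
    ∀ (d : Type) [Fintype d] [DecidableEq d] (ℓ : ℕ) [Fact ℓ.Prime] (ρ : H →* GL d ℚ_[ℓ]),
      Continuous ρ → ∃ S : Set QB, Sps QB (1 / 4) S ∧ ∀ π : BB →+* QB,
        π (algebraMap ℚ[X] BB X) ∉ S →
        ∃ Γ : Subgroup H, Γ.FiniteIndex ∧ ∀ γ ∈ Γ, ∃ σ : H, (σ : GT) ∈ decG π ∧ ρ σ = ρ γ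

/-- SBU (small, uses SBV): SBI for all algebraic points (the end of `srb` in `Helper35_HIK/Srb.lean`). -/
def SbuStmt : Prop :=
  ∀ (H : Subgroup GT), IsOpen (H : Set GT) →
    ∀ (d : Type) [Fintype d] [DecidableEq d] (ℓ : ℕ) [Fact ℓ.Prime] (ρ : H →* GL d ℚ_[ℓ]),
      Continuous ρ → ∃ S : Set QB, Sps QB (1 / 4) S ∧ ∀ π : BB →+* QB,
        π (algebraMap ℚ[X] BB X) ∉ S → ∀ ρs : StabH H π →* GL d ℚ_[ℓ], SpecH H ρ π ρs →
        Set.range ρs ⊆ Set.range ρ ∧
        ∃ Γ : Subgroup H, Γ.FiniteIndex ∧ ρ '' (Γ : Set H) ⊆ Set.range ρs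

/-- SRU (small, uses SBV; DEK (`dekA`) is proved): SRI for all algebraic points.  SBV for `H = ⊤` and
`ρ' h = ρ (h : GT)`; the inclusion `range ρa ⊆ range ρ` by DEK, and for `σ ∈ decG π` with its `τ`:
`τ (π t) = π (σ t) = π t`, so `τ ∈ Stab a` and `ρa τ = ρ σ`; transport `Γ` by `Subgroup.map`. -/
def SruStmt : Prop :=
  ∀ (d : Type) [Fintype d] [DecidableEq d] (ℓ : ℕ) [Fact ℓ.Prime] (ρ : GT →* GL d ℚ_[ℓ]),
    Continuous ρ → ∃ S : Set QB, Sps QB (1 / 4) S ∧
      ∀ a ∉ S, ∀ ρa : Stab a →* GL d ℚ_[ℓ], SpecializesAt ρ a ρa →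
        Set.range ρa ⊆ Set.range ρ ∧
        ∃ Γ : Subgroup GT, Γ.FiniteIndex ∧ ρ '' (Γ : Set GT) ⊆ Set.range ρa

/-- FNU (small, uses SRU; MON (`monA`) is proved): the monodromy groups. -/
def FnuStmt : Prop :=
  ∀ (d : Type) [Fintype d] [DecidableEq d] (ℓ : ℕ) [Fact ℓ.Prime] (ρ : GT →* GL d ℚ_[ℓ]),
    Continuous ρ → ∃ S : Set QB, Sps QB (1 / 4) S ∧
      ∀ a ∉ S, ∀ ρa : Stab a →* GL d ℚ_[ℓ], SpecializesAt ρ a ρa →
        ∀ (F : Type u) [Field F] [Algebra ℚ_[ℓ] F], monodromy ρa F = monodromy ρ F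

/-- GKU (medium, uses SBV; MON (`monA`), DEK (`dekA`) are proved): the same for the Galois group of any
number field `K` at any point `a` of `K`.

Proof.  SBV for `H = ⊤`.  `MTN.SpecK ρ ψ a ρK` gives `π` with `π t = ψ a`.  `range ρK ⊆ range ρ` by DEK (see
`gks` in `Helper35_HIK/Hic.lean`).  Let `Γ` be as in SBV and `D' = {σ ∈ decG π | σ` induces an element `τ` of
`MTN.Gk ψ}`.  `MTN.Gk ψ` has finite index in the Galois group of `ℚ` and `τ` is determined by `σ`, and
`σ ↦ τ` is a homomorphism on `decG π` (`π` is surjective, DEK), so `D'` has finite index in `decG π`, and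
`ρ (D')` has finite index in `ρ (decG π) ⊇ ρ (Γ)`.  `Γ' = {γ ∈ Γ | ρ γ ∈ ρ (D')}` has finite index in `Γ`, and
`ρ (Γ') ⊆ ρ (D') ⊆ range ρK`.  MON. -/
def GkuStmt : Prop :=
  ∀ (d : Type) [Fintype d] [DecidableEq d] (ℓ : ℕ) [Fact ℓ.Prime] (ρ : GT →* GL d ℚ_[ℓ]),
    Continuous ρ → ∃ S : Set QB, Sps QB (1 / 4) S ∧
      ∀ (K : Type) [Field K] [NumberField K] (a : K) (ψ : K →+* QB), ψ a ∉ S →
      ∀ ρa : MTN.Gk ψ →* GL d ℚ_[ℓ], MTN.SpecK ρ ψ a ρa →
        ∀ (F : Type u) [Field F] [Algebra ℚ_[ℓ] F], monodromy ρa F = monodromy ρ F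

/-! ### Counting -/

/-- SPC (small): calculus. -/
def SpcStmt : Prop :=
  ∀ (E : Type) [Field E] [CharZero E] (δ : ℝ),
    (∀ S T : Set E, S ⊆ T → Sps E δ T → Sps E δ S) ∧
    (∀ (ι : Type) [Finite ι] (S : ι → Set E), (∀ i, Sps E δ (S i)) → Sps E δ (⋃ i, S i)) ∧
    (∀ δ' : ℝ, δ' ≤ δ → ∀ S : Set E, Sps E δ S → Sps E δ' S) ∧
    (0 < δ → ∀ S : Set E, Sps E δ S → Spr E S) ∧ Sps E δ ∅

/-- SPD (medium): countably many sets.

Proof.  `C l m A ≥ 0` the constants of `S l`.  Let `θ l = (δ - δ') / (2 l + 1)`, and `N l ≥ l + 1` with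
`2 ^ (l + 1) C l m A ≤ (N l) ^ (θ l)` for all `m, A ≤ l`;
`T = {a | ∃ l, a ∈ S l ∧ ∀ m, a ∉ Ip E m (N l)}`.  Let `m`, `A` be given.  For `x ∈ Ip E m (X ^ A)` and `κ < X`,
`x + κ` is a root of `p (t - κ)` (`Polynomial.comp`/`taylor`), monic of degree `≤ m`, with coefficients of absolute
value at most `(m + 1) 2 ^ m X ^ m X ^ A =: B`.  So if `x + κ ∈ T` it is in `S l` for some `l` with `N l < B`
(otherwise `x + κ ∈ Ip E m (N l)`), and there are finitely many such `l` (`l < B`).  The number of the `κ` is at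
most `∑ (l with N l < B) C l m A X ^ (1 - δ)`.  For `l ≥ max m A`: `C l m A ≤ 2 ^ (-l-1) B ^ (θ l)`,
`B ^ (θ l) ≤ c X ^ ((m + A) θ l) ≤ c X ^ (δ - δ')`, `c = (m + 1) 2 ^ m + 1` (we may take `δ - δ' ≤ 1`, or
`c = ((m + 1) 2 ^ m) ^ (δ - δ')`); for `l < max m A` a constant. -/
def SpdStmt : Prop :=
  ∀ (E : Type) [Field E] [CharZero E] (δ δ' : ℝ), δ' < δ → ∀ S : ℕ → Set E,
    (∀ l, Sps E δ (S l)) → ∃ (T : Set E) (N : ℕ → ℕ), Sps E δ' T ∧
      ∀ l, ∀ a ∈ S l, (∀ m, a ∉ Ip E m (N l)) → a ∈ T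

/-- CAU (small): the bound of Cauchy.  `‖z‖ ^ n = ‖∑ i < n, p_i z ^ i‖ ≤ B ∑ ‖z‖ ^ i`; Mathlib: `Polynomial.cauchyBound`
or direct. -/
def CauStmt : Prop :=
  ∀ (E : Type) [Field E] (e : E →+* ℂ) (m B : ℕ), ∀ a ∈ Ip E m B, ‖e a‖ ≤ B + 1

/-- EXS (medium, uses CAU): from windows to segments (see WDQ, `Helper1_PSV/WDQ.lean`).

Proof.  Fix `m`, `A`; let `A' = 2 (m + A) + 1` (and `X` so large that `(m + 1) 2 ^ m ≤ X ^ (1/2)`; small `X` by the
constant), `a = α m A'` (we may replace it by `a + 1 ≥ 1`).  For `x ∈ Ip ℂ m (X ^ A)` there are at most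
`2 X ^ (1/2) + 1` values `κ < X` with `‖x + κ‖ < X ^ (1/2)` (real parts).  If `‖x + κ‖ ≥ X ^ (1/2)` then
`w = x + κ ∈ Pts m A'`: its polynomial `p (t - κ)` has coefficients at most
`(m + 1) 2 ^ m X ^ (m + A) ≤ X ^ (m + A + 1/2) ≤ ‖w‖ ^ A'`.  Let `K` be the largest number with
`(C (K + 1)) ^ a ≤ X ^ (1/2)`, `K + 1 ≥ X ^ (1 / (2 a)) / (2 C)`; if `K ≥ 1` divide `{0, .., X - 1}` in at most `X / K + 1`
blocks of `K` consecutive numbers; in each block let `κ` be the largest element with `x + κ ∈ S` and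
`‖x + κ‖ ≥ X ^ (1/2)`: all the others are `κ - κ'`, `κ' < K`, so there are at most `C` of them.  Together
`C (X / K + 1) + 2 X ^ (1/2) + 1 ≤ C' X ^ (1 - 1 / (2 a))`. -/
def ExsStmt : Prop :=
  ∀ (C : ℕ) (α : ℕ → ℕ → ℕ) (S : Set ℂ), 1 ≤ C →
    (∀ (m A K : ℕ), ∀ x ∈ Pts m A, ((C : ℝ) * (K + 1)) ^ α m A ≤ ‖x‖ →
      Nat.card {κ : ℕ // κ < K ∧ x - κ ∈ S} ≤ C) → Spr ℂ S

/-- SPK (medium): power saving in the ring of integers of every number field.  As AVZ
(`Helper44_HIK/AVG.lean`): for `house a0 ≤ 2 X` the characteristic polynomial (or the product of `t - σ a0` over all the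
embeddings) is a monic integral polynomial of degree `m = [k : ℚ]` with coefficients at most
`2 ^ m (2 X) ^ m ≤ X ^ A` for `X ≥ 2`, `A = 3 m`; `X = 1`: a constant.  Then the count of AVG. -/
def SpkStmt : Prop :=
  ∀ (E : Type) [Field E] [CharZero E] (S : Set E), Spr E S →
    ∀ (k : Type) [Field k] [NumberField k] (σ : k →+* E), PSV.PSav k {a : 𝓞 k | σ a ∈ S}

/-- HBC (medium): the number of the algebraic integers.  The coefficient of `t ^ (n - i)` of a monic `p` of degree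
`n ≤ m` with all complex roots of absolute value `≤ X` has absolute value at most `binom n i X ^ i`
(`Polynomial.coeff_le_of_roots_le` or `coeff_bdd_of_roots_le`), so there are at most
`∑ n ≤ m, ∏ i ≤ n, (2 binom n i X ^ i + 1) ≤ C X ^ (m (m + 1) / 2)` polynomials, with at most `m` roots each. -/
def HbcStmt : Prop :=
  ∀ (E : Type) [Field E] [CharZero E] (m : ℕ), ∃ C : ℕ, ∀ X : ℕ, 1 ≤ X →
    (Hb E m X).Finite ∧ (Nat.card (Hb E m X) : ℝ) ≤ C * (X : ℝ) ^ (m * (m + 1) / 2 : ℕ)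

/-- SPM (medium, uses HBC): one hundred percent of all the algebraic integers of degree at most `m`, with power
saving.  Count the pairs `(x, κ)`, `x ∈ S ∩ Hb m X`, `κ < X`: `(x, κ) ↦ (x - κ, κ)` is injective, `x - κ ∈ Hb m (2 X)`, and
for each `w ∈ Hb m (2 X)` (so `w ∈ Ip m (X ^ A)` for some `A` which depends on `m`, if `X ≥ 2`, see HBC) there are
at most `C X ^ (1 - δ)` values `κ` with `w + κ ∈ S`. -/
def SpmStmt : Prop :=
  ∀ (E : Type) [Field E] [CharZero E] (S : Set E), Spr E S → ∀ m : ℕ, ∃ (C : ℕ) (δ : ℝ), 0 < δ ∧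
    ∀ X : ℕ, 1 ≤ X → (Nat.card {x : E // x ∈ S ∧ x ∈ Hb E m X} : ℝ) ≤
      C * (X : ℝ) ^ (((m * (m + 1) / 2 : ℕ) : ℝ) - δ)

end Pool.Agent.HUK
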