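import Pool.Agent.HUK.Stmts

/-!
# HUK, block A: all algebraic numbers in place of the algebraic integers (helper39)

The segments `x, x + 1, .., x + X - 1` start at ANY algebraic number `x` of degree at most `m` and height at
most `X ^ A` (fractions are allowed).  Rows: file `Pool/Agent/HelperNN_HUK/XXX.lean`, theorem
`Pool.Agent.HUK.HNN.xxx : XxxStmt` with the statements of the column `uses` as hypotheses.
-/

set_option autoImplicit false

namespace Pool.Agent.HUK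

open Polynomial NumberField Matrix Pool.Agent.MTL Pool.Agent.MTL.H34 Pool.Agent.Helper78_MT
  Pool.Agent.HIK Pool.Agent.HIP Pool.Agent.MTPN Pool.Agent.MTN

universe u

/-- The algebraic numbers of degree at most `m` and height at most `B`: the zeros of the nonzero integral
polynomials of degree at most `m` with coefficients of absolute value at most `B`. -/
def Ap (E : Type) [Field E] (m B : ℕ) : Set E :=
  {x | ∃ p : ℤ[X], p ≠ 0 ∧ p.natDegree ≤ m ∧ (∀ i, |p.coeff i| ≤ (B : ℤ)) ∧ aeval x p = 0}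

/-- `S` has at most `C X ^ (1 - δ)` elements in each segment `x, x + 1, .., x + X - 1`, `x` an algebraic
number of degree at most `m` and height at most `X ^ A`, `C` depends on `m` and `A`. -/
def Spa (E : Type) [Field E] (δ : ℝ) (S : Set E) : Prop :=
  ∀ m A : ℕ, ∃ C : ℝ, ∀ X : ℕ, 1 ≤ X → ∀ x ∈ Ap E m (X ^ A),
    (Nat.card {κ : ℕ // κ < X ∧ x + κ ∈ S} : ℝ) ≤ C * (X : ℝ) ^ (1 - δ)

/-- The same with an exponent which depends on `m` and `A`. -/
def Sra (E : Type) [Field E] (S : Set E) : Prop :=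
  ∀ m A : ℕ, ∃ (C : ℕ) (δ : ℝ), 0 < δ ∧ ∀ X : ℕ, 1 ≤ X → ∀ x ∈ Ap E m (X ^ A),
    (Nat.card {κ : ℕ // κ < X ∧ x + κ ∈ S} : ℝ) ≤ C * (X : ℝ) ^ (1 - δ)

/-- Monic of degree `D ≥ 2`, irreducible over the rational functions, with coefficients of degree at most
`H` and house at most `V`, and the same for a nonzero resultant. -/
structure AdmP (K : Type) [Field K] [NumberField K] (D H : ℕ) (V : ℝ) (g : (𝓞 K)[X][X]) : Prop where
  monic : g.Monic
  deg : g.natDegree = D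
  two : 2 ≤ D
  irr : Irreducible (g.map (algebraMap (𝓞 K)[X] (FractionRing (𝓞 K)[X])))
  cd : ∀ j, (g.coeff j).natDegree ≤ H
  ch : ∀ j i, house (((g.coeff j).coeff i : 𝓞 K) : K) ≤ V
  sep : ∃ (A B : (𝓞 K)[X][X]) (r : (𝓞 K)[X]), r ≠ 0 ∧ A * g + B * derivative g = C r ∧
    r.natDegree ≤ H ∧ ∀ i, house ((r.coeff i : 𝓞 K) : K) ≤ V

/-- RTV (small): explicit RTU (the same proof): `‖σ y‖ ≤ 1 + ∑ j < D, ∑ i ≤ G, V T ^ i` for every
embedding `σ` (a zero of a monic polynomial has absolute value at most `1 + ∑ |coefficients|`). -/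
def RtvStmt : Prop :=
  ∀ (K : Type) [Field K] [NumberField K] (g : (𝓞 K)[X][X]) (D G : ℕ) (V T : ℝ), g.Monic →
    g.natDegree ≤ D → (∀ j, (g.coeff j).natDegree ≤ G) →
    (∀ j i, house (((g.coeff j).coeff i : 𝓞 K) : K) ≤ V) → 1 ≤ T →
    ∀ a y : 𝓞 K, house (a : K) ≤ T → evalEval a y g = 0 →
      house (y : K) ≤ (1 + D * (G + 1) * V) * T ^ G

/-- SNV (small): SNG for a given prime which does not divide the norm of the leading coefficient (the same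
proof as SNG, `Helper44_HIK/SNG.lean`: the leading coefficient is in no prime ideal above `p`, since such a
prime ideal contains its norm or: its norm is a multiple of the element). -/
def SnvStmt : Prop :=
  ∀ (K : Type) [Field K] [NumberField K] (r : (𝓞 K)[X]), r ≠ 0 → ∀ p : ℕ, p.Prime →
    ¬ (p : ℤ) ∣ Algebra.norm ℤ r.leadingCoeff → ∀ (a0 : 𝓞 K) (S : Finset ℕ), (∀ n ∈ S, n < p) →
      (∀ n ∈ S, ¬ UnitMod (p : 𝓞 K) (r.eval (a0 + n))) →
      S.card ≤ Module.finrank ℚ K * r.natDegree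

/-- NHB (small): the norm is the product of the conjugates (`Algebra.norm_eq_prod_embeddings`,
`Algebra.coe_norm_int`). -/
def NhbStmt : Prop :=
  ∀ (K : Type) [Field K] [NumberField K] (a : 𝓞 K),
    (|(Algebra.norm ℤ a : ℤ)| : ℝ) ≤ house (a : K) ^ Module.finrank ℚ K

/-- BRT (small): Bertrand's postulate gives primes `2 ^ i n < p_i ≤ 2 ^ (i + 1) n`, `i ≤ j`; if all of them
divide `N` then `|N| ≥ (n + 1) ^ (j + 1) > n ^ j`. -/
def BrtStmt : Prop :=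
  ∀ (n j : ℕ) (N : ℤ), 1 ≤ n → N ≠ 0 → |N| ≤ (n : ℤ) ^ j →
    ∃ p : ℕ, p.Prime ∧ n < p ∧ p ≤ 2 ^ (j + 1) * n ∧ ¬ (p : ℤ) ∣ N

/-- CNV (medium, uses CLU, RTV, SNV, NHB, BRT; EXP (`HIP.H84.exp`), RTS (`rtsA`) are proved): CNU with
coefficients of polynomial size.

Proof: as CNU (`Helper31_HIK/CNT.lean`, CNI) with `a0 = 0`, `T = R ^ 4`, `κ = A + H`, `M = 2 κ`,
`house (y n) ≤ (1 + D (H + 1) R ^ (4 A)) (R ^ 4) ^ H ≤ (1 + D (H + 1)) (R ^ 4) ^ κ =: Y` (RTV);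
`N = norm` of the leading coefficient of `r`, `N ≠ 0`, `|N| ≤ (R ^ (4 A)) ^ m ≤ (R ^ 3) ^ j`, `j = 2 A m` (NHB; the house
of a nonzero algebraic integer is at least one), so by BRT a prime `R ^ 3 < p ≤ 2 ^ (j + 1) R ^ 3`, `p ∤ N`,
`p ≤ T` for `R ≥ 2 ^ (j + 1)`; size condition from EXP for `R ≥ R0`;
`C' = 2 ^ (j + 1) B D ^ m + m H`. -/
def CnvStmt : Prop :=
  ∀ m D H A : ℕ, ∃ C' R0 : ℕ, ∀ (K : Type) [Field K] [NumberField K], Module.finrank ℚ K ≤ m →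
    ∀ R ≥ R0, ∀ g : (𝓞 K)[X][X], AdmP K D H ((R : ℝ) ^ (4 * A)) g →
      Nat.card {n : ℕ // n < R ^ 4 ∧ ∃ y : 𝓞 K, evalEval (n : 𝓞 K) y g = 0} ≤ C' * R ^ 3

/-- ADP (STRONG, uses HOI): the substitution `t = x + n`, `y = z / d ^ h`.

Proof.  Let `D = natDegree g`, `h` a bound for the degrees of all the coefficients (in `t`) of `g`, `A`, `B`, `r`
(`A g + B g' = C r`), `c` one for the houses of all their coefficients.  Put
`G = Y ^ D + ∑ l < D, (∑ i ≤ h, C (d ^ (h (D - l) - i) g_(l,i)) (C (d x) + C d * X) ^ i) Y ^ l`, where `g_(l,i) = j (coefficient)` and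
`d x ∈ 𝓞 K`; over `K` this is `d ^ (h D) g (x + n, z / d ^ h)`: the polynomial in `Y` with coefficients
`g_l (x + X)` (`Polynomial.comp`), scaled by `scaleRoots (d ^ h)`.
Irreducible over `FractionRing (𝓞 K)[X]`: this field is the fraction field of `K[X]` too
(`IsFractionRing`), `pj j g` is irreducible over it (`AdmS.irr`), the automorphism `X ↦ x + X` of `K[X]` extends to the
fraction field (`IsFractionRing.ringEquivOfRingEquiv`/`map`) and preserves irreducibility, and so does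
`scaleRoots` by a unit (`irreducible_scaleRoots` or the proof of ALI, `Helper41_HIP/ALI.lean`).
Resultant: with `e` large (depends on the degrees in `t` and `y` of `A`, `B`, `r`, `g` only)
`d ^ e r (x + X) = A~ G + B~ G'`, `A~ = d ^ e₁ A (x + X, Y / d ^ h)` etc., all with coefficients in `𝓞 K`; it is not zero.
Degrees and houses: `house` of the coefficients is at most `(number of terms) c V ^ (e + ..) 2 ^ h ≤ V ^ H` for a
large `H` (since `V ≥ 2`; HOI: the houses of the `j (coefficient)` are those of the coefficients; if `c ≤ 2 ^ u` then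
`c ≤ V ^ u`).  Last part: `z = d ^ h y`; it is integral since `G (n, z) = 0` and `G` is monic. -/
def AdpStmt : Prop :=
  ∀ (k : Type) [Field k] [NumberField k] (g : (𝓞 k)[X][X]), AdmS k g → ∃ H : ℕ,
    ∀ (K : Type) [Field K] [NumberField K] (j : k →+* K) (x : K) (d : ℕ) (V : ℝ), 1 ≤ d →
    IsIntegral ℤ ((d : K) * x) → (d : ℝ) ≤ V → house x ≤ V → 2 ≤ V →
    ∃ G : (𝓞 K)[X][X], AdmP K g.natDegree H (V ^ H) G ∧ ∀ (n : ℕ) (y : K),
      evalEval (x + n) y (g.map (mapRingHom (j.comp (algebraMap (𝓞 k) k)))) = 0 →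
      ∃ z : 𝓞 K, evalEval (n : 𝓞 K) z G = 0

/-- WIA (medium, uses ADP, CNV): WIN for all algebraic numbers.

Proof: as WIN.  `x ∈ Ap QB m (X ^ A)`, `p` its polynomial, `d` the absolute value of the leading coefficient,
`1 ≤ d ≤ X ^ A`; `d x` is integral (`isIntegral_leadingCoeff_smul`), the conjugates of `x` have absolute value at most
`1 + X ^ A` (as for monic polynomials, since `d ≥ 1`).  `V = 2 X ^ A`, `L`, `j` as in WIN (`x` as an element of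
`L`), `G` by ADP: `V ^ H ≤ X ^ ((A + 1) H) ≤ R ^ (4 (A + 1) H)` if `X ≥ 2`, `X ≤ R ^ 4` (CNV for
`m' = m [k : ℚ]`, `D`, `H`, `(A + 1) H`; AdmP is monotone in `V`); `X = 1`: the constant.  An element
`y ∈ L` with `evalEval (x + κ) y g^ψ = 0` in `QB` gives the same equation in `L`. -/
def WiaStmt : Prop :=
  ∀ (k : Type) [Field k] [NumberField k] (g : (𝓞 k)[X][X]), AdmS k g → Spa QB (1 / 4) (RtSet k g)

/-- SCA (small): calculus (edit of SPC), and `Ip ⊆ Ap`. -/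
def ScaStmt : Prop :=
  ∀ (E : Type) [Field E] [CharZero E] (δ : ℝ),
    (∀ S T : Set E, S ⊆ T → Spa E δ T → Spa E δ S) ∧
    (∀ (ι : Type) [Finite ι] (S : ι → Set E), (∀ i, Spa E δ (S i)) → Spa E δ (⋃ i, S i)) ∧
    (∀ δ' : ℝ, δ' ≤ δ → ∀ S : Set E, Spa E δ S → Spa E δ' S) ∧
    (0 < δ → ∀ S : Set E, Spa E δ S → Sra E S) ∧ Spa E δ ∅ ∧
    ∀ S : Set E, Sra E S → Spr E S

/-- DGA (small): edit of DGU. -/
def DgaStmt : Prop :=
  ∀ (δ : ℝ) (S : ℕ → Set QB), (∀ m, Spa QB δ (S m)) →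
    Spa QB δ {α : QB | α ∈ S (minpoly ℚ α).natDegree}

/-- SDA (medium): edit of SPD: `x + κ` is a zero of `p (t - κ)`, which is not zero, of degree `≤ m`, with
coefficients of absolute value at most `(m + 1) 2 ^ m X ^ m X ^ A`. -/
def SdaStmt : Prop :=
  ∀ (E : Type) [Field E] [CharZero E] (δ δ' : ℝ), δ' < δ → ∀ S : ℕ → Set E,
    (∀ l, Spa E δ (S l)) → ∃ (T : Set E) (N : ℕ → ℕ), Spa E δ' T ∧
      ∀ l, ∀ a ∈ S l, (∀ m, a ∉ Ap E m (N l)) → a ∈ T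

/-- EXA (small if EXS is there): edit of EXS (`Ap` in place of `Ip`; the polynomials need not be monic). -/
def ExaStmt : Prop :=
  ∀ (C : ℕ) (α : ℕ → ℕ → ℕ) (S : Set ℂ), 1 ≤ C →
    (∀ (m A K : ℕ), ∀ x ∈ Pts m A, ((C : ℝ) * (K + 1)) ^ α m A ≤ ‖x‖ →
      Nat.card {κ : ℕ // κ < K ∧ x - κ ∈ S} ≤ C) → Sra ℂ S

/-- FRC (medium): power saving for the fractions `a / b`, `a ∈ 𝓞 k`, `1 ≤ b ≤ X ^ A`, all whose conjugates
have absolute value at most `X` (`A = 0`: the elements of `𝓞 k`).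

Proof.  Fix `b`.  Count the pairs `(a, κ)`, `house a ≤ b X`, `σ a / b ∈ S`, `κ < X`: `(a, κ) ↦ (a - b κ, κ)` is
injective, `w = a - b κ` has house at most `2 b X`, and `σ a / b = σ w / b + κ`, where `σ w / b` is in
`Ap E m (X ^ A')` for `X ≥ 2` (the polynomial `b ^ m P_w (b t)..`: `w / b` is a zero of `P_w (b t)`, `P_w` the
characteristic polynomial of `w`, with coefficients at most `b ^ m 2 ^ m (2 b X) ^ m`), `A'` depends on
`m`, `A`.  So (BOX, `boxA`) `X #{a} ≤ C (2 b X + 1) ^ m C X ^ (1 - δ)`, and the sum over `b ≤ X ^ A` is at most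
`C X ^ (m - δ) ∑ b ^ m ≤ C X ^ (m - δ + A (m + 1))`.  `X = 1`: a constant. -/
def FrcStmt : Prop :=
  ∀ (E : Type) [Field E] [CharZero E] (S : Set E), Sra E S →
    ∀ (k : Type) [Field k] [NumberField k] (σ : k →+* E) (A : ℕ), ∃ (C : ℕ) (δ : ℝ), 0 < δ ∧
      ∀ X : ℕ, 1 ≤ X →
        (Nat.card {p : 𝓞 k × ℕ // 1 ≤ p.2 ∧ p.2 ≤ X ^ A ∧ house (p.1 : k) ≤ p.2 * X ∧
          σ p.1 / (p.2 : E) ∈ S} : ℝ) ≤
        C * (X : ℝ) ^ ((Module.finrank ℚ k : ℝ) + A * (Module.finrank ℚ k + 1) - δ)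

/-! ### Copies of the rows of part C (helper39) -/

/-- HCA: HCU with `Spa`. -/
def HcaStmt : Prop :=
  ∀ N : Subgroup GT, N.Normal → IsOpen (N : Set GT) → ∃ S : Set QB, Spa QB (1 / 4) S ∧
    ∀ π : BB →+* QB, π (algebraMap ℚ[X] BB X) ∉ S →
      ∃ c : BB, IsAlgebraic ℚ (c : Om) ∧ π c = π (algebraMap ℚ[X] BB X) ∧
        ∀ γ : GT, γ • c = c → ∃ σ ∈ decG π, σ • c = c ∧ σ⁻¹ * γ ∈ N

/-- SVA: SBV with `Spa`. -/
def SvaStmt : Prop :=
  ∀ (H : Subgroup GT), IsOpen (H : Set GT) →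
    ∀ (d : Type) [Fintype d] [DecidableEq d] (ℓ : ℕ) [Fact ℓ.Prime] (ρ : H →* GL d ℚ_[ℓ]),
      Continuous ρ → ∃ S : Set QB, Spa QB (1 / 4) S ∧ ∀ π : BB →+* QB,
        π (algebraMap ℚ[X] BB X) ∉ S →
        ∃ Γ : Subgroup H, Γ.FiniteIndex ∧ ∀ γ ∈ Γ, ∃ σ : H, (σ : GT) ∈ decG π ∧ ρ σ = ρ γ

/-- SUA: SBU with `Spa`. -/
def SuaStmt : Prop :=
  ∀ (H : Subgroup GT), IsOpen (H : Set GT) →
    ∀ (d : Type) [Fintype d] [DecidableEq d] (ℓ : ℕ) [Fact ℓ.Prime] (ρ : H →* GL d ℚ_[ℓ]),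
      Continuous ρ → ∃ S : Set QB, Spa QB (1 / 4) S ∧ ∀ π : BB →+* QB,
        π (algebraMap ℚ[X] BB X) ∉ S → ∀ ρs : StabH H π →* GL d ℚ_[ℓ], SpecH H ρ π ρs →
        Set.range ρs ⊆ Set.range ρ ∧
        ∃ Γ : Subgroup H, Γ.FiniteIndex ∧ ρ '' (Γ : Set H) ⊆ Set.range ρs

/-- SQA: SRU with `Spa`. -/
def SqaStmt : Prop :=
  ∀ (d : Type) [Fintype d] [DecidableEq d] (ℓ : ℕ) [Fact ℓ.Prime] (ρ : GT →* GL d ℚ_[ℓ]),
    Continuous ρ → ∃ S : Set QB, Spa QB (1 / 4) S ∧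
      ∀ a ∉ S, ∀ ρa : Stab a →* GL d ℚ_[ℓ], SpecializesAt ρ a ρa →
        Set.range ρa ⊆ Set.range ρ ∧
        ∃ Γ : Subgroup GT, Γ.FiniteIndex ∧ ρ '' (Γ : Set GT) ⊆ Set.range ρa

/-- FNA: FNU with `Spa`. -/
def FnaStmt : Prop :=
  ∀ (d : Type) [Fintype d] [DecidableEq d] (ℓ : ℕ) [Fact ℓ.Prime] (ρ : GT →* GL d ℚ_[ℓ]),
    Continuous ρ → ∃ S : Set QB, Spa QB (1 / 4) S ∧
      ∀ a ∉ S, ∀ ρa : Stab a →* GL d ℚ_[ℓ], SpecializesAt ρ a ρa →
        ∀ (F : Type u) [Field F] [Algebra ℚ_[ℓ] F], monodromy ρa F = monodromy ρ F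

/-- GKA: GKU with `Spa`. -/
def GkaStmt : Prop :=
  ∀ (d : Type) [Fintype d] [DecidableEq d] (ℓ : ℕ) [Fact ℓ.Prime] (ρ : GT →* GL d ℚ_[ℓ]),
    Continuous ρ → ∃ S : Set QB, Spa QB (1 / 4) S ∧
      ∀ (K : Type) [Field K] [NumberField K] (a : K) (ψ : K →+* QB), ψ a ∉ S →
      ∀ ρa : MTN.Gk ψ →* GL d ℚ_[ℓ], MTN.SpecK ρ ψ a ρa →
        ∀ (F : Type u) [Field F] [Algebra ℚ_[ℓ] F], monodromy ρa F = monodromy ρ F

end Pool.Agent.HUK
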